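import Pool.Agent.H174.GP.StP

/-! # `S_tautail`: tail of the geometric times -/

set_option autoImplicit false

open MeasureTheory ProbabilityTheory Finset

namespace Pool.Agent.H707.GP174

open Pool.Agent.H174.GP

/-- the normalised time minus one -/
noncomputable def yy (K : ℕ) (n : ℕ) : ℝ := ((n : ℝ) + 1) / K - 1

theorem exp_bound {x : ℝ} (h1 : -(1 / 2) ≤ x) (h2 : x ≤ 1 / 2) :
    Real.exp (-x) ≤ (1 - x) * Real.exp (x ^ 2) := by
  have h3 : 1 ≤ (1 - x) * Real.exp (x + x ^ 2) := by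
    rcases le_total 0 x with h | h
    · have h5 := Real.quadratic_le_exp_of_nonneg (x := x + x ^ 2) (by positivity)
      have h4 : 1 ≤ (1 - x) * (1 + (x + x ^ 2) + (x + x ^ 2) ^ 2 / 2) := by
        have e : (1 - x) * (1 + (x + x ^ 2) + (x + x ^ 2) ^ 2 / 2) =
            1 + x ^ 2 * (1 - x - x ^ 2 - x ^ 3) / 2 := by ring
        have h6 : 0 ≤ 1 - x - x ^ 2 - x ^ 3 := by
          have h7 : x ^ 2 ≤ 1 / 4 := by nlinarith
          have h8 : x ^ 3 ≤ 1 / 8 := by nlinarith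
          linarith
        rw [e]
        have := mul_nonneg (sq_nonneg x) h6
        linarith
      exact h4.trans (mul_le_mul_of_nonneg_left h5 (by linarith))
    · have h5 := Real.add_one_le_exp (x + x ^ 2)
      have h4 : 1 ≤ (1 - x) * (x + x ^ 2 + 1) := by
        have e : (1 - x) * (x + x ^ 2 + 1) = 1 + x ^ 2 * (-x) := by ring
        rw [e]
        have := mul_nonneg (sq_nonneg x) (neg_nonneg.2 h)
        linarith
      exact h4.trans (mul_le_mul_of_nonneg_left h5 (by linarith))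
  have h6 : Real.exp (-x) * Real.exp x = 1 := by rw [← Real.exp_add]; simp
  rw [Real.exp_add] at h3
  calc Real.exp (-x) = Real.exp (-x) * 1 := (mul_one _).symm
    _ ≤ Real.exp (-x) * ((1 - x) * (Real.exp x * Real.exp (x ^ 2))) :=
        mul_le_mul_of_nonneg_left h3 (Real.exp_pos _).le
    _ = (1 - x) * Real.exp (x ^ 2) * (Real.exp (-x) * Real.exp x) := by ring
    _ = _ := by rw [h6, mul_one]

theorem pK_ne {K : ℕ} (hK : 1 ≤ K) : pK K ≠ 0 := by
  intro h
  have h1 := congrArg Subtype.val h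
  have h2 : (1 : ℝ) / K = 0 := h1
  have h3 : (0 : ℝ) < K := by exact_mod_cast hK
  have h4 : (0 : ℝ) < 1 / K := by positivity
  linarith

/-- the terms of the generating function -/
theorem term_eq (K : ℕ) (x : ℝ) (n : ℕ) :
    (1 - 1 / (K : ℝ)) ^ n * (1 / (K : ℝ)) * Real.exp (x * yy K n) =
      Real.exp (-x) * Real.exp (x / K) * (1 / (K : ℝ)) *
        ((1 - 1 / (K : ℝ)) * Real.exp (x / K)) ^ n := by
  have h1 : x * yy K n = -x + x / K + (n : ℝ) * (x / K) := by
    unfold yy; ring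
  rw [h1, Real.exp_add, Real.exp_add, Real.exp_nat_mul, mul_pow]
  ring

theorem ratio_lt {K : ℕ} (hK : 1 ≤ K) {x : ℝ} (h2 : x ≤ 1 / 2) :
    Real.exp (x / K) * (1 / (K : ℝ)) * (1 - x) ≤ 1 - (1 - 1 / (K : ℝ)) * Real.exp (x / K) := by
  have h3 := Real.add_one_le_exp (-(x / K))
  have h4 : Real.exp (-(x / K)) * Real.exp (x / K) = 1 := by rw [← Real.exp_add]; simp
  have h5 := Real.exp_pos (x / K)
  have h6 : (-(x / K) + 1) * Real.exp (x / K) ≤ 1 :=
    (mul_le_mul_of_nonneg_right h3 h5.le).trans h4.le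
  have h7 : Real.exp (x / K) * (1 / (K : ℝ)) * (1 - x) =
      (-(x / K) + 1) * Real.exp (x / K) - (1 - 1 / (K : ℝ)) * Real.exp (x / K) := by ring
  linarith

theorem geo_mgf {K : ℕ} (hK : 1 ≤ K) {x : ℝ} (h1 : -(1 / 2) ≤ x) (h2 : x ≤ 1 / 2) :
    Integrable (fun n : ℕ => Real.exp (x * yy K n)) (geometricMeasure (pK K)) ∧
      mgf (yy K) (geometricMeasure (pK K)) x ≤ Real.exp (x ^ 2) := by
  have hK0 : (0 : ℝ) < K := by exact_mod_cast hK
  have hp : ((pK K : unitInterval) : ℝ) = 1 / (K : ℝ) := rfl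
  have hr := ratio_lt hK h2
  have hpos : 0 < Real.exp (x / K) * (1 / (K : ℝ)) * (1 - x) := by
    have : 0 < 1 - x := by linarith
    positivity
  obtain ⟨q, hq⟩ : ∃ q, q = (1 - 1 / (K : ℝ)) * Real.exp (x / K) := ⟨_, rfl⟩
  have hq0 : 0 ≤ q := by
    rw [hq]
    refine mul_nonneg ?_ (Real.exp_pos _).le
    have : 1 / (K : ℝ) ≤ 1 := by
      rw [div_le_one hK0]
      exact_mod_cast hK
    linarith
  rw [← hq] at hr
  have hq1 : q < 1 := by linarith
  have hint : Integrable (fun n : ℕ => Real.exp (x * yy K n)) (geometricMeasure (pK K)) := by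
    rw [integrable_geometricMeasure_iff (pK_ne hK)]
    have hs : Summable (fun n : ℕ => Real.exp (-x) * Real.exp (x / K) * (1 / (K : ℝ)) * q ^ n) :=
      (summable_geometric_of_lt_one hq0 hq1).mul_left _
    refine hs.congr fun n => ?_
    rw [hp, Real.norm_of_nonneg (Real.exp_pos _).le, term_eq, hq]
  refine ⟨hint, ?_⟩
  unfold mgf
  rw [integral_geometricMeasure (pK_ne hK)]
  have h3 : ∑' n : ℕ, ((1 - ((pK K : unitInterval) : ℝ)) ^ n * ((pK K : unitInterval) : ℝ)) •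
      Real.exp (x * yy K n) = Real.exp (-x) * Real.exp (x / K) * (1 / (K : ℝ)) * (1 - q)⁻¹ := by
    rw [← tsum_geometric_of_lt_one hq0 hq1, ← tsum_mul_left]
    refine tsum_congr fun n => ?_
    rw [hp, smul_eq_mul, term_eq, hq]
  rw [h3, ← div_eq_mul_inv, div_le_iff₀ (by linarith)]
  have h4 := exp_bound h1 h2
  calc Real.exp (-x) * Real.exp (x / K) * (1 / (K : ℝ)) ≤
      (1 - x) * Real.exp (x ^ 2) * Real.exp (x / K) * (1 / (K : ℝ)) := by gcongr
    _ = Real.exp (x ^ 2) * (Real.exp (x / K) * (1 / (K : ℝ)) * (1 - x)) := by ring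
    _ ≤ Real.exp (x ^ 2) * (1 - q) := mul_le_mul_of_nonneg_left hr (Real.exp_pos _).le

/-- the coordinates -/
noncomputable def YY (K : ℕ) (j : ℕ) (g : ℕ → ℕ) : ℝ := yy K (g j)

theorem YY_meas (K j : ℕ) : Measurable (YY K j) :=
  (measurable_of_countable (yy K)).comp (measurable_pi_apply j)

theorem YY_mgf {K : ℕ} (hK : 1 ≤ K) {x : ℝ} (h1 : -(1 / 2) ≤ x) (h2 : x ≤ 1 / 2) (j : ℕ) :
    Integrable (fun g => Real.exp (x * YY K j g)) (GG K) ∧
      mgf (YY K j) (GG K) x ≤ Real.exp (x ^ 2) := by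
  obtain ⟨h3, h4⟩ := geo_mgf hK h1 h2
  have hmp := measurePreserving_eval_infinitePi (fun _ : ℕ => geometricMeasure (pK K)) j
  refine ⟨hmp.integrable_comp_of_integrable h3, ?_⟩
  have h5 : mgf (YY K j) (GG K) x = mgf (yy K) (geometricMeasure (pK K)) x := by
    unfold mgf
    rw [← hmp.map_eq, integral_map (measurable_pi_apply j).aemeasurable
      (measurable_of_countable _).aestronglyMeasurable]
    rfl
  rw [h5]
  exact h4

theorem YY_indep (K : ℕ) : iIndepFun (YY K) (GG K) :=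
  iIndepFun_infinitePi (P := fun _ : ℕ => geometricMeasure (pK K)) (X := fun _ => yy K)
    (fun _ => measurable_of_countable _)

theorem sum_mgf {K : ℕ} (hK : 1 ≤ K) {x : ℝ} (h1 : -(1 / 2) ≤ x) (h2 : x ≤ 1 / 2) (i : ℕ) :
    Integrable (fun g => Real.exp (x * (∑ j ∈ range i, YY K j) g)) (GG K) ∧
      mgf (∑ j ∈ range i, YY K j) (GG K) x ≤ Real.exp (i * x ^ 2) := by
  refine ⟨(YY_indep K).integrable_exp_mul_sum (fun j => YY_meas K j)
    (fun j _ => (YY_mgf hK h1 h2 j).1), ?_⟩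
  rw [(YY_indep K).mgf_sum (fun j => YY_meas K j)]
  calc ∏ j ∈ range i, mgf (YY K j) (GG K) x ≤ ∏ _j ∈ range i, Real.exp (x ^ 2) :=
        prod_le_prod (fun j _ => mgf_nonneg) (fun j _ => (YY_mgf hK h1 h2 j).2)
    _ = Real.exp (i * x ^ 2) := by
        rw [prod_const, card_range, ← Real.exp_nat_mul]

theorem gp_tautail : S_tautail := by
  intro K i l hK hi hl
  have hK0 : (0 : ℝ) < K := by exact_mod_cast hK
  have hi1 : (1 : ℝ) ≤ i := by exact_mod_cast hi
  obtain ⟨r, hr⟩ : ∃ r, r = Real.sqrt i := ⟨_, rfl⟩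
  have hr1 : 1 ≤ r := by rw [hr]; exact Real.one_le_sqrt.2 hi1
  have hr2 : r ^ 2 = i := by rw [hr]; exact Real.sq_sqrt (by linarith)
  obtain ⟨x, hx⟩ : ∃ x, x = 1 / (2 * r) := ⟨_, rfl⟩
  have hx0 : 0 < x := by rw [hx]; positivity
  have hx2 : x ≤ 1 / 2 := by
    rw [hx]
    exact one_div_le_one_div_of_le (by norm_num) (by linarith)
  have hxr : x * r = 1 / 2 := by rw [hx]; field_simp
  have hix : (i : ℝ) * x ^ 2 = 1 / 4 := by
    rw [← hr2]
    have : r ^ 2 * x ^ 2 = (x * r) ^ 2 := by ring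
    rw [this, hxr]; norm_num
  obtain ⟨T, hT⟩ : ∃ T, T = ∑ j ∈ range i, YY K j := ⟨_, rfl⟩
  have hTe : ∀ g, (tau g i : ℝ) - K * i = K * T g := by
    intro g
    rw [hT, Finset.sum_apply]
    unfold tau YY yy
    rw [sum_sub_distrib, ← sum_div]
    push_cast
    rw [sum_const, card_range]
    simp only [nsmul_eq_mul, mul_one]
    field_simp
  have hsub : {g : ℕ → ℕ | K * Real.sqrt i * l ≤ |(tau g i : ℝ) - K * i|} ⊆
      {g | r * l ≤ T g} ∪ {g | T g ≤ -(r * l)} := by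
    intro g hg
    have h1 : K * Real.sqrt i * l ≤ |(tau g i : ℝ) - K * i| := hg
    rw [hTe, abs_mul, abs_of_pos hK0, ← hr, mul_assoc] at h1
    have h2 : r * l ≤ |T g| := le_of_mul_le_mul_left h1 hK0
    rcases le_abs.1 h2 with h3 | h3
    · exact Or.inl h3
    · right
      show T g ≤ -(r * l)
      linarith
  obtain ⟨i1, b1⟩ := sum_mgf hK (by linarith : -(1 / 2) ≤ x) hx2 i
  obtain ⟨i2, b2⟩ := sum_mgf hK (by linarith : -(1 / 2) ≤ -x) (by linarith) i
  rw [← hT] at i1 b1 i2 b2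
  rw [hix] at b1
  rw [neg_sq, hix] at b2
  have c1 := measure_ge_le_exp_mul_mgf (μ := GG K) (r * l) hx0.le i1
  have c2 := measure_le_le_exp_mul_mgf (μ := GG K) (-(r * l)) (by linarith : -x ≤ 0) i2
  have e1 : -x * (r * l) = -(l / 2) := by
    have : -x * (r * l) = -(x * r * l) := by ring
    rw [this, hxr]; ring
  have e2 : -(-x) * (-(r * l)) = -(l / 2) := by
    have : -(-x) * (-(r * l)) = -(x * r * l) := by ring
    rw [this, hxr]; ring
  rw [e1] at c1
  rw [e2] at c2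
  calc (GG K).real {g : ℕ → ℕ | K * Real.sqrt i * l ≤ |(tau g i : ℝ) - K * i|} ≤
      (GG K).real ({g | r * l ≤ T g} ∪ {g | T g ≤ -(r * l)}) := measureReal_mono hsub
    _ ≤ (GG K).real {g | r * l ≤ T g} + (GG K).real {g | T g ≤ -(r * l)} :=
        measureReal_union_le _ _
    _ ≤ Real.exp (-(l / 2)) * Real.exp (1 / 4) + Real.exp (-(l / 2)) * Real.exp (1 / 4) := by
        refine add_le_add (c1.trans ?_) (c2.trans ?_)
        · exact mul_le_mul_of_nonneg_left b1 (Real.exp_pos _).le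
        · exact mul_le_mul_of_nonneg_left b2 (Real.exp_pos _).le
    _ = 2 * Real.exp (1 / 4) * Real.exp (-(l / 2)) := by ring

end Pool.Agent.H707.GP174
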