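import Pool.Agent.H174.GP.StE

/-!
Lower bound for one pair of Durfee sizes.
-/

open MeasureTheory ProbabilityTheory Finset Filter Topology

namespace Pool.Agent.H707.GP174

open Pool.Agent.H174.GP

theorem gp_dl (h1 : S_B1r) (h2 : S_Pr) (h3 : S_cnta2) (h4 : S_a2u) (h5 : S_DLa) (h6 : S_DLb) :
    Pool.Agent.H174.GP.S_DL := by
  intro θ c1 c2 ε hθ hT hc1 hc12 hc2 hε
  obtain ⟨s1, hs1, s2, hs2, hB⟩ := h1 c1 c2 hc1 hc12 hc2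
  obtain ⟨C, hC, d1, hA⟩ := h4 s1 (2 * s2) hs1 (by linarith)
  have hsc : 0 < Real.sqrt c1 := Real.sqrt_pos.mpr hc1
  obtain ⟨d2, hD⟩ := h6 θ s1 s2 (1 / Real.sqrt c1) ε hθ hT hs1 hs2 (by positivity) hε
  have e1 : ∀ᶠ n : ℕ in atTop, ((max d1 (max d2 1) : ℕ) : ℝ) / c1 ≤ (n : ℝ) ^ (1 / 2 : ℝ) :=
    ((tendsto_rpow_atTop (by norm_num)).comp tendsto_natCast_atTop_atTop).eventually_ge_atTop _
  have e2 : ∀ᶠ n : ℕ in atTop, 1 / c1 ≤ (n : ℝ) ^ (1 / 4 : ℝ) :=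
    ((tendsto_rpow_atTop (by norm_num)).comp tendsto_natCast_atTop_atTop).eventually_ge_atTop _
  have e3 : ∀ᶠ n : ℕ in atTop, C ^ 2 ≤ (n : ℝ) ^ (ε / 2) :=
    ((tendsto_rpow_atTop (by positivity)).comp tendsto_natCast_atTop_atTop).eventually_ge_atTop _
  obtain ⟨n0, hn0⟩ := eventually_atTop.mp (((e1.and e2).and e3).and (eventually_ge_atTop 1))
  refine ⟨n0, fun n hn d d' hd1 hd2 hdd hclose => ?_⟩
  obtain ⟨⟨⟨hn1, hn2⟩, hn3⟩, hn4⟩ := hn0 n hn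
  have hnpos : (0 : ℝ) < n := by exact_mod_cast hn4
  have hsq : Real.sqrt n = (n : ℝ) ^ (1 / 2 : ℝ) := Real.sqrt_eq_rpow _
  obtain ⟨t, ht⟩ : ∃ t : ℝ, t = (n : ℝ) ^ (1 / 4 : ℝ) := ⟨_, rfl⟩
  have htpos : 0 < t := by rw [ht]; exact Real.rpow_pos_of_pos hnpos _
  have htt : t * t = Real.sqrt n := by
    rw [ht, hsq, ← Real.rpow_add hnpos]
    norm_num
  rw [← ht] at hn2 hclose
  have hddR : (d : ℝ) ≤ d' := by exact_mod_cast hdd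
  -- the size of `d`
  have hdbig : ((max d1 (max d2 1) : ℕ) : ℝ) ≤ d := by
    rw [← hsq, div_le_iff₀ hc1] at hn1
    linarith
  have hdbig' : max d1 (max d2 1) ≤ d := by exact_mod_cast hdbig
  have hdd1 : d1 ≤ d := (le_max_left _ _).trans hdbig'
  have hdd2 : d2 ≤ d := ((le_max_left _ _).trans (le_max_right _ _)).trans hdbig'
  have hdone : 1 ≤ d := ((le_max_right _ _).trans (le_max_right _ _)).trans hdbig'
  have hdpos : (0 : ℝ) < d := by exact_mod_cast hdone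
  have hd'pos : (0 : ℝ) < d' := lt_of_lt_of_le hdpos hddR
  have hsn0 : 0 ≤ Real.sqrt n := Real.sqrt_nonneg _
  have hsnsq : Real.sqrt n * Real.sqrt n = n := Real.mul_self_sqrt hnpos.le
  have hd'lt : (d' : ℝ) ≤ Real.sqrt n := hd2.trans (by nlinarith)
  have hdlt : (d : ℝ) ≤ Real.sqrt n := hddR.trans hd'lt
  have hdn : d ^ 2 ≤ n := by
    have : (d : ℝ) ^ 2 ≤ n := by nlinarith
    exact_mod_cast this
  have hd'n : d' ^ 2 ≤ n := by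
    have : (d' : ℝ) ^ 2 ≤ n := by nlinarith
    exact_mod_cast this
  obtain ⟨σ, hσ, hmatch, hσ1, hσ2⟩ := hB n d hn4 hdone hd1 (hddR.trans hd2)
  -- `t ≤ d`, `t ≤ √d / √c1`
  have htd : t ≤ d := by
    have h7 : 1 ≤ t * c1 := by rwa [div_le_iff₀ hc1] at hn2
    have h8 : c1 * (t * t) ≤ d := by rw [htt]; exact hd1
    nlinarith
  have htsq : t ≤ 1 / Real.sqrt c1 * Real.sqrt d := by
    have h8 : c1 * (t * t) ≤ d := by rw [htt]; exact hd1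
    have h9 : Real.sqrt c1 * t ≤ Real.sqrt d := by
      refine Real.le_sqrt_of_sq_le ?_
      rw [mul_pow, Real.sq_sqrt hc1.le]
      nlinarith
    rw [one_div, inv_mul_eq_div, le_div_iff₀ hsc]
    linarith
  have hd'2 : (d' : ℝ) ≤ 2 * d := by linarith
  have hσd'1 : s1 ≤ σ * d' := hσ1.trans (mul_le_mul_of_nonneg_left hddR hσ.le)
  have hσd'2 : σ * d' ≤ 2 * s2 := by
    have := mul_le_mul_of_nonneg_left hd'2 hσ.le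
    linarith
  -- upper bounds for the numbers of partitions
  have hB1 := hA d hdd1 σ hσ hσ1 (by linarith) ((n : ℤ) - (d : ℤ) ^ 2)
  have hB2 := hA d' (hdd1.trans hdd) σ hσ hσd'1 hσd'2 ((n : ℤ) - (d' : ℤ) ^ 2)
  have hB3 : (d' : ℝ) ^ (-(3 / 2) : ℝ) ≤ (d : ℝ) ^ (-(3 / 2) : ℝ) :=
    Real.antitoneOn_rpow_Ioi_of_exponent_nonpos (by norm_num) hdpos hd'pos hddR
  have hB4 : a2 d' σ ((n : ℤ) - (d' : ℤ) ^ 2) ≤ C * (d : ℝ) ^ (-(3 / 2) : ℝ) :=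
    hB2.trans (mul_le_mul_of_nonneg_left hB3 hC.le)
  have hc1' := h3 d n σ hσ hdn
  have hc2' := h3 d' n σ hσ hd'n
  have hpr := h2 d d' n σ σ hσ hσ hdn hd'n
  have hlow := (hD d hdd2 d' n σ hσ hσ1 hσ2 hdd ((sub_le_iff_le_add'.mpr (by linarith)) : (d' : ℝ) - d ≤
    1 / Real.sqrt c1 * Real.sqrt d) hmatch).trans (h5 d d' n σ hσ hdone hdd)
  rw [hpr, Real.exp_add]
  generalize Q4.real {q | d ^ 2 + ∑ i : Fin d, ((i : ℕ) + 1) * (gF d σ q.1.1 i + gF d σ q.2.1 i) = n ∧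
      d' ^ 2 + ∑ i : Fin d', ((i : ℕ) + 1) * (gF d' σ q.1.2 i + gF d' σ q.2.2 i) = n ∧
      DomM (toP d' (gF d' σ q.1.2) (gF d' σ q.2.2)) (toP d (gF d σ q.1.1) (gF d σ q.2.1))} = Qv at *
  have hE1 : 0 < Real.exp (σ * ((n : ℝ) - (d : ℝ) ^ 2)) := Real.exp_pos _
  have hE2 : 0 < Real.exp (σ * ((n : ℝ) - (d' : ℝ) ^ 2)) := Real.exp_pos _
  generalize Real.exp (σ * ((n : ℝ) - (d : ℝ) ^ 2)) = E1 at *
  generalize Real.exp (σ * ((n : ℝ) - (d' : ℝ) ^ 2)) = E2 at *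
  have hZ1 : 0 ≤ (Zf d σ) ^ 2 := sq_nonneg _
  have hZ2 : 0 ≤ (Zf d' σ) ^ 2 := sq_nonneg _
  generalize (Zf d σ) ^ 2 = Z1 at *
  generalize (Zf d' σ) ^ 2 = Z2 at *
  have hu1 : (cnt d n : ℝ) ≤ E1 * Z1 * (C * (d : ℝ) ^ (-(3 / 2) : ℝ)) := by
    rw [hc1']
    exact mul_le_mul_of_nonneg_left hB1 (mul_nonneg hE1.le hZ1)
  have hu2 : (cnt d' n : ℝ) ≤ E2 * Z2 * (C * (d : ℝ) ^ (-(3 / 2) : ℝ)) := by
    rw [hc2']
    exact mul_le_mul_of_nonneg_left hB4 (mul_nonneg hE2.le hZ2)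
  have hdr0 : 0 ≤ (d : ℝ) ^ (-(3 / 2) : ℝ) := Real.rpow_nonneg hdpos.le _
  have hprod : (cnt d n : ℝ) * cnt d' n ≤
      (E1 * Z1 * (C * (d : ℝ) ^ (-(3 / 2) : ℝ))) * (E2 * Z2 * (C * (d : ℝ) ^ (-(3 / 2) : ℝ))) :=
    mul_le_mul hu1 hu2 (Nat.cast_nonneg _)
      (mul_nonneg (mul_nonneg hE1.le hZ1) (mul_nonneg hC.le hdr0))
  -- the powers
  have hp1 : (d : ℝ) ^ (-(3 / 2) : ℝ) * (d : ℝ) ^ (-(3 / 2) : ℝ) = (d : ℝ) ^ (-3 : ℝ) := by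
    rw [← Real.rpow_add hdpos]
    norm_num
  have hp2 : (n : ℝ) ^ (-θ - ε) * C ^ 2 ≤ (d : ℝ) ^ (-(2 * θ) - ε) := by
    calc (n : ℝ) ^ (-θ - ε) * C ^ 2 ≤ (n : ℝ) ^ (-θ - ε) * (n : ℝ) ^ (ε / 2) :=
          mul_le_mul_of_nonneg_left hn3 (Real.rpow_nonneg hnpos.le _)
      _ = (n : ℝ) ^ ((1 / 2 : ℝ) * (-(2 * θ) - ε)) := by
          rw [← Real.rpow_add hnpos]
          refine congrArg (fun s : ℝ => (n : ℝ) ^ s) ?_
          ring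
      _ = (Real.sqrt n) ^ (-(2 * θ) - ε) := by
          rw [Real.rpow_mul hnpos.le, hsq]
      _ ≤ (d : ℝ) ^ (-(2 * θ) - ε) :=
          Real.antitoneOn_rpow_Ioi_of_exponent_nonpos (by linarith) hdpos
            (Set.mem_Ioi.mpr (lt_of_lt_of_le hdpos hdlt)) hdlt
  have hp3 : (n : ℝ) ^ (-θ - ε) * C ^ 2 * (d : ℝ) ^ (-3 : ℝ) ≤ Qv := by
    refine le_trans ?_ hlow
    calc (n : ℝ) ^ (-θ - ε) * C ^ 2 * (d : ℝ) ^ (-3 : ℝ) ≤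
        (d : ℝ) ^ (-(2 * θ) - ε) * (d : ℝ) ^ (-3 : ℝ) :=
          mul_le_mul_of_nonneg_right hp2 (Real.rpow_nonneg hdpos.le _)
      _ = (d : ℝ) ^ (-(2 * θ) - 3 - ε) := by
          rw [← Real.rpow_add hdpos]
          refine congrArg (fun s : ℝ => (d : ℝ) ^ s) ?_
          ring
  calc (n : ℝ) ^ (-θ - ε) * cnt d n * cnt d' n
      = (n : ℝ) ^ (-θ - ε) * ((cnt d n : ℝ) * cnt d' n) := by ring
    _ ≤ (n : ℝ) ^ (-θ - ε) * ((E1 * Z1 * (C * (d : ℝ) ^ (-(3 / 2) : ℝ))) *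
          (E2 * Z2 * (C * (d : ℝ) ^ (-(3 / 2) : ℝ)))) :=
        mul_le_mul_of_nonneg_left hprod (Real.rpow_nonneg hnpos.le _)
    _ = (E1 * E2 * Z1 * Z2) * ((n : ℝ) ^ (-θ - ε) * C ^ 2 *
          ((d : ℝ) ^ (-(3 / 2) : ℝ) * (d : ℝ) ^ (-(3 / 2) : ℝ))) := by ring
    _ = (E1 * E2 * Z1 * Z2) * ((n : ℝ) ^ (-θ - ε) * C ^ 2 * (d : ℝ) ^ (-3 : ℝ)) := by rw [hp1]
    _ ≤ (E1 * E2 * Z1 * Z2) * Qv :=
        mul_le_mul_of_nonneg_left hp3 (mul_nonneg (mul_nonneg (mul_nonneg hE1.le hE2.le) hZ1) hZ2)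

end Pool.Agent.H707.GP174
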