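import Pool.Agent.H174.GP.StG

/-!
Quantile map from the Laplace distribution to the standard normal distribution.
-/

open MeasureTheory ProbabilityTheory Filter Topology

namespace Pool.Agent.H707.GP174

open Pool.Agent.H174.GP

namespace GmapN

/-- symmetric probability measures equivalent to the Lebesgue measure -/
structure Nice (μ : Measure ℝ) : Prop where
  pr : IsProbabilityMeasure μ
  ac : μ ≪ volume
  ac' : volume ≪ μ
  sy : μ.map (fun x => -x) = μ

variable {μ : Measure ℝ}

theorem Nice.single (h : Nice μ) (x : ℝ) : μ {x} = 0 := h.ac (measure_singleton x)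

theorem Nice.cont (h : Nice μ) : Continuous (cdf μ) := by
  have := h.pr
  rw [continuous_iff_continuousAt]
  intro x
  rw [continuousAt_iff_continuous_left'_right']
  refine ⟨?_, ?_⟩
  · rw [(monotone_cdf μ).continuousWithinAt_Iio_iff_leftLim_eq]
    have h1 : (cdf μ).measure {x} = ENNReal.ofReal (cdf μ x - Function.leftLim (cdf μ) x) :=
      StieltjesFunction.measure_singleton _ _
    rw [measure_cdf, h.single] at h1
    have h2 := ENNReal.ofReal_eq_zero.mp h1.symm
    have h3 : Function.leftLim (cdf μ) x ≤ cdf μ x := (monotone_cdf μ).leftLim_le le_rfl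
    linarith
  · exact ((cdf μ).right_continuous x).mono Set.Ioi_subset_Ici_self

theorem Nice.strict (h : Nice μ) : StrictMono (cdf μ) := by
  have := h.pr
  intro a b hab
  by_contra hcon
  push Not at hcon
  have h1 : (cdf μ).measure (Set.Ioc a b) = ENNReal.ofReal (cdf μ b - cdf μ a) :=
    StieltjesFunction.measure_Ioc _ _ _
  rw [measure_cdf, ENNReal.ofReal_of_nonpos (by linarith)] at h1
  have h2 := h.ac' h1
  rw [Real.volume_Ioc, ENNReal.ofReal_eq_zero] at h2
  linarith

theorem Nice.neg (h : Nice μ) (x : ℝ) : cdf μ (-x) = 1 - cdf μ x := by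
  have := h.pr
  have : NullSingletonClass μ := ⟨h.single⟩
  rw [cdf_eq_real, cdf_eq_real]
  have h1 : μ (Set.Iic (-x)) = μ (Set.Ici x) := by
    have h2 : (μ.map (fun x => -x)) (Set.Iic (-x)) = μ (Set.Iic (-x)) := by rw [h.sy]
    rw [Measure.map_apply measurable_neg measurableSet_Iic] at h2
    rw [← h2]
    refine congrArg μ ?_
    ext y
    simp
  have h3 : μ (Set.Ici x) = μ (Set.Ioi x) := measure_congr Ioi_ae_eq_Ici.symm
  rw [measureReal_def, h1, h3, ← measureReal_def, ← Set.compl_Iic,
    probReal_compl_eq_one_sub measurableSet_Iic]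

theorem Nice.mem (h : Nice μ) (x : ℝ) : 0 < cdf μ x ∧ cdf μ x < 1 :=
  ⟨(cdf_nonneg μ (x - 1)).trans_lt (h.strict (by linarith)),
    (h.strict (by linarith : x < x + 1)).trans_le (cdf_le_one μ (x + 1))⟩

theorem Nice.surj (h : Nice μ) {t : ℝ} (h0 : 0 < t) (h1 : t < 1) : ∃ y, cdf μ y = t := by
  have h2 : t ∈ Set.range (cdf μ) := by
    refine mem_range_of_exists_le_of_exists_ge h.cont ?_ ?_
    · exact (((tendsto_cdf_atBot μ).eventually_lt_const h0).mono fun _ hy => hy.le).exists
    · exact (((tendsto_cdf_atTop μ).eventually_const_lt h1).mono fun _ hy => hy.le).exists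
  exact h2

theorem nice_lap : Nice lap := by
  have hm : Measurable (fun x : ℝ => ENNReal.ofReal (Real.exp (-|x|) / 2)) := by fun_prop
  refine ⟨inferInstance, withDensity_absolutelyContinuous _ _, ?_, ?_⟩
  · refine withDensity_absolutelyContinuous' hm.aemeasurable (Eventually.of_forall fun x => ?_)
    rw [Ne, ENNReal.ofReal_eq_zero, not_le]
    positivity
  · ext s hs
    rw [Measure.map_apply measurable_neg hs]
    unfold lap
    rw [withDensity_apply _ hs, withDensity_apply _ (measurable_neg hs)]
    rw [← (Measure.measurePreserving_neg (volume : Measure ℝ)).setLIntegral_comp_preimage hs hm]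
    refine setLIntegral_congr_fun (measurable_neg hs) fun x _ => ?_
    show ENNReal.ofReal (Real.exp (-|x|) / 2) = ENNReal.ofReal (Real.exp (-|-x|) / 2)
    rw [abs_neg]

theorem nice_gauss : Nice (gaussianReal 0 1) := by
  refine ⟨inferInstance, gaussianReal_absolutelyContinuous 0 one_ne_zero,
    gaussianReal_absolutelyContinuous' 0 one_ne_zero, ?_⟩
  rw [gaussianReal_map_neg, neg_zero]

end GmapN

open GmapN

theorem gp_gmap : Pool.Agent.H174.GP.S_Gmap := by
  have hL := nice_lap
  have hG := nice_gauss
  have hex : ∀ x : ℝ, ∃ y, cdf (gaussianReal 0 1) y = cdf lap x := fun x =>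
    hG.surj (hL.mem x).1 (hL.mem x).2
  choose G hGx using hex
  have hmono : Monotone G := by
    intro x x' hx
    have h1 : cdf (gaussianReal 0 1) (G x) ≤ cdf (gaussianReal 0 1) (G x') := by
      rw [hGx, hGx]
      exact monotone_cdf lap hx
    exact hG.strict.le_iff_le.mp h1
  refine ⟨G, hmono, fun x => ?_, hmono.measurable, ?_⟩
  · refine hG.strict.injective ?_
    rw [hG.neg, hGx, hGx, hL.neg]
  · have : IsProbabilityMeasure (Measure.map G lap) :=
      Measure.isProbabilityMeasure_map hmono.measurable.aemeasurable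
    refine Measure.eq_of_cdf _ _ ?_
    ext y
    obtain ⟨x0, hx0⟩ := hL.surj (hG.mem y).1 (hG.mem y).2
    rw [cdf_eq_real, measureReal_def, Measure.map_apply hmono.measurable measurableSet_Iic]
    have h1 : G ⁻¹' Set.Iic y = Set.Iic x0 := by
      ext x
      rw [Set.mem_preimage, Set.mem_Iic, Set.mem_Iic, ← hG.strict.le_iff_le, hGx, ← hx0,
        hL.strict.le_iff_le]
    rw [h1, ← measureReal_def, ← cdf_eq_real, hx0]

end Pool.Agent.H707.GP174
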